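import Pool.Agent.H628R3.RO.P3
import Pool.Agent.H628R3.RO.G1

/-!
The stages of the construction are computable in unary: the last stage that is not later than `N`
and its level.
-/

namespace Pool.Agent.H628R3.RO

open Pool.Agent.NPC

namespace Stage

/-! ### capped powers -/

/-- powers of two, capped at a value larger than `N` -/
def cp (N a : ℕ) : ℕ := 2 ^ (min a (Nat.size N))

theorem cp_big {N a : ℕ} (h : N < 2 ^ a) : N < cp N a := by
  unfold cp
  have h1 : Nat.size N ≤ a := Nat.size_le.2 h
  rw [min_eq_right h1]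
  exact Nat.lt_size_self N

theorem cp_eq {N a : ℕ} (h : 2 ^ a ≤ N) : cp N a = 2 ^ a := by
  unfold cp
  have h1 : a < Nat.size N := Nat.lt_size.2 h
  rw [min_eq_left h1.le]

theorem cp_big' {N a : ℕ} (h : N < a) : N < cp N a :=
  cp_big (h.trans Nat.lt_two_pow_self)

theorem cp_le (N a : ℕ) : cp N a ≤ 2 * N + 1 := by
  unfold cp
  have h1 : 2 ^ (min a (Nat.size N)) ≤ 2 ^ (Nat.size N) :=
    Nat.pow_le_pow_right (by norm_num) (min_le_right _ _)
  refine h1.trans ?_
  rcases Nat.eq_zero_or_pos (Nat.size N) with h | h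
  · rw [h]; omega
  · obtain ⟨m, hm⟩ : ∃ m, Nat.size N = m + 1 := ⟨Nat.size N - 1, by omega⟩
    have h2 : 2 ^ m ≤ N := Nat.lt_size.1 (by omega)
    rw [hm, pow_succ]
    omega

/-- the time needed for the check, capped -/
noncomputable def gt' (b : Polynomial ℕ) (N n : ℕ) : ℕ :=
  cp N (cp N (b.eval (cp N n) + 1)) + n + 1

theorem gt'_spec {b : Polynomial ℕ} (hb : ∀ m, m ≤ b.eval m) (N n : ℕ) :
    (gt' b N n ≤ N ∧ gt' b N n = Gt b n ∧ Gt b n ≤ N) ∨ (N < gt' b N n ∧ N < Gt b n) := by
  have e0 : ∀ x : ℕ, x < 2 ^ x := fun x => Nat.lt_two_pow_self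
  by_cases h : Gt b n ≤ N
  · left
    have h3 : 2 ^ (2 ^ (b.eval (2 ^ n) + 1)) ≤ N := by
      unfold Gt at h
      omega
    have h2 : 2 ^ (b.eval (2 ^ n) + 1) ≤ N := (e0 _).le.trans h3
    have h1 : 2 ^ n ≤ N := by
      have := hb (2 ^ n)
      have := e0 (b.eval (2 ^ n) + 1)
      omega
    have h4 : gt' b N n = Gt b n := by
      unfold gt' Gt
      rw [cp_eq h1, cp_eq h2, cp_eq h3]
    exact ⟨h4 ▸ h, h4, h⟩
  · right
    have h := not_le.1 h
    refine ⟨?_, h⟩
    have key : N < cp N (cp N (b.eval (cp N n) + 1)) ∨ gt' b N n = Gt b n := by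
      rcases Nat.lt_or_ge N (2 ^ n) with h1 | h1
      · left
        apply cp_big'
        apply cp_big'
        have h2 := cp_big h1
        have h3 := hb (cp N n)
        omega
      · rcases Nat.lt_or_ge N (2 ^ (b.eval (2 ^ n) + 1)) with h2 | h2
        · left
          rw [cp_eq h1]
          apply cp_big'
          exact cp_big h2
        · rcases Nat.lt_or_ge N (2 ^ (2 ^ (b.eval (2 ^ n) + 1))) with h3 | h3
          · left
            rw [cp_eq h1, cp_eq h2]
            exact cp_big h3
          · right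
            unfold gt' Gt
            rw [cp_eq h1, cp_eq h2, cp_eq h3]
    rcases key with h1 | h1
    · unfold gt'
      omega
    · rw [h1]; exact h

theorem gt'_le_iff {b : Polynomial ℕ} (hb : ∀ m, m ≤ b.eval m) (N n : ℕ) :
    gt' b N n ≤ N ↔ Gt b n ≤ N := by
  rcases gt'_spec hb N n with h | h
  · exact iff_of_true h.1 h.2.2
  · exact iff_of_false (not_le.2 h.1) (not_le.2 h.2)

theorem gt'_eq {b : Polynomial ℕ} (hb : ∀ m, m ≤ b.eval m) {N n : ℕ} (h : gt' b N n ≤ N) :
    gt' b N n = Gt b n := by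
  rcases gt'_spec hb N n with h' | h'
  · exact h'.2.1
  · omega

/-! ### computability of the capped powers -/

theorem u_cp {α : Type} [TEnc α] {N f : α → ℕ} (hN : UPoly N) (hf : UPoly f) :
    UPoly (fun a => cp (N a) (f a)) := by
  have h1 : Poly (fun a => Nat.size (N a)) :=
    (Poly.length (Poly.natBits hN.toPoly)).congr fun a => Nat.size_eq_bits_len _
  have h2 : UPoly (fun a => min (f a) (Nat.size (N a))) :=
    UPoly.of_le (Poly.min hf.toPoly h1) hf fun a => min_le_left _ _
  exact u_pow h2 (UPoly.add (UPoly.mul (UPoly.const 2) hN) (UPoly.const 1))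
    fun a => cp_le (N a) (f a)

theorem u_gt' (b : Polynomial ℕ) {α : Type} [TEnc α] {N f : α → ℕ} (hN : UPoly N)
    (hf : UPoly f) : UPoly (fun a => gt' b (N a) (f a)) := by
  unfold gt'
  exact UPoly.add (UPoly.add (u_cp hN (u_cp hN (UPoly.add (UPoly.eval (u_cp hN hf) b)
    (UPoly.const 1)))) hf) (UPoly.const 1)

theorem u_toNat {α : Type} [TEnc α] {c : α → Bool} (hc : Poly c) :
    UPoly (fun a => (c a).toNat) :=
  (Poly.cond hc (NPC.Poly.const [()]) (NPC.Poly.const [])).congr fun a => by
    change _ = List.replicate (c a).toNat ()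
    cases c a <;> rfl

/-! ### the steps -/

section

variable (Bad Err : ℕ → ℕ → Set Oracle) (b : Polynomial ℕ) (t : ℕ) (L : List (List Bool))

open Classical in
/-- go to the next stage if it is not later than `N` -/
noncomputable def step (N : ℕ) (s : ℕ × ℕ) : ℕ × ℕ :=
  if (t < s.1 ∧ s.2 ≤ s.1) ∧ Gt b s.1 ≤ N then
    (Gt b s.1, s.2 + (chk Bad Err t L s.1 s.2).toNat) else s

/-- the last stage that is not later than `N`, and its level -/
noncomputable def stg (N : ℕ) : ℕ × ℕ := (step Bad Err b t L N)^[N] (t + 4, 4)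

end

theorem lt_Gt (b : Polynomial ℕ) (n : ℕ) : n < Gt b n :=
  Nat.lt_succ_of_le (Nat.le_add_left _ _)

theorem Tt_strictMono (b : Polynomial ℕ) (t : ℕ) : StrictMono (Tt b t) :=
  strictMono_nat_of_lt_succ fun _ => lt_Gt b _

theorem add_le_Tt (b : Polynomial ℕ) (t i : ℕ) : t + 4 + i ≤ Tt b t i := by
  induction i with
  | zero => exact le_rfl
  | succ i ih =>
    have := lt_Gt b (Tt b t i)
    have e : Tt b t (i + 1) = Gt b (Tt b t i) := rfl
    omega

theorem lev_le (Bad Err : ℕ → ℕ → Set Oracle) (t : ℕ) (L : List (List Bool)) (T : ℕ → ℕ)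
    (i : ℕ) : lev Bad Err t L T i ≤ 4 + i := by
  induction i with
  | zero => exact le_rfl
  | succ i ih =>
    have e : lev Bad Err t L T (i + 1) =
      lev Bad Err t L T i + (chk Bad Err t L (T i) (lev Bad Err t L T i)).toNat := rfl
    have := Bool.toNat_le (chk Bad Err t L (T i) (lev Bad Err t L T i))
    omega

theorem iter_spec (Bad Err : ℕ → ℕ → Set Oracle) (b : Polynomial ℕ) (t : ℕ)
    (L : List (List Bool)) (N k : ℕ) :
    ∃ j, j ≤ k ∧ (step Bad Err b t L N)^[k] (t + 4, 4) =
      (Tt b t j, lev Bad Err t L (Tt b t) j) ∧ (j = k ∨ N < Tt b t (j + 1)) ∧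
      (j = 0 ∨ Tt b t j ≤ N) := by
  induction k with
  | zero => exact ⟨0, le_rfl, rfl, Or.inl rfl, Or.inl rfl⟩
  | succ k ih =>
    obtain ⟨j, hj, hs, h1, h2⟩ := ih
    rw [Function.iterate_succ_apply', hs]
    have h3 := add_le_Tt b t j
    have h4 := lev_le Bad Err t L (Tt b t) j
    by_cases h : Gt b (Tt b t j) ≤ N
    · have h5 : j = k := by
        rcases h1 with h1 | h1
        · exact h1
        · exact absurd h (not_le.2 h1)
      subst h5
      refine ⟨j + 1, le_rfl, ?_, Or.inl rfl, Or.inr h⟩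
      unfold step
      rw [if_pos ⟨⟨by dsimp only; omega, by dsimp only; omega⟩, h⟩]
      rfl
    · refine ⟨j, hj.trans (Nat.le_succ k), ?_, Or.inr (not_le.1 h), h2⟩
      unfold step
      rw [if_neg fun h' => h h'.2]

theorem stg_spec (Bad Err : ℕ → ℕ → Set Oracle) (b : Polynomial ℕ) (t : ℕ)
    (L : List (List Bool)) (N : ℕ) :
    ∃ j, stg Bad Err b t L N = (Tt b t j, lev Bad Err t L (Tt b t) j) ∧ N < Tt b t (j + 1) ∧
      (j = 0 ∨ Tt b t j ≤ N) := by
  obtain ⟨j, hj, hs, h1, h2⟩ := iter_spec Bad Err b t L N N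
  refine ⟨j, hs, ?_, h2⟩
  rcases h1 with h1 | h1
  · have := add_le_Tt b t (j + 1)
    omega
  · exact h1

theorem stg_Tt (Bad Err : ℕ → ℕ → Set Oracle) (b : Polynomial ℕ) (t : ℕ)
    (L : List (List Bool)) (i : ℕ) :
    stg Bad Err b t L (Tt b t i) = (Tt b t i, lev Bad Err t L (Tt b t) i) := by
  obtain ⟨j, hs, h1, h2⟩ := stg_spec Bad Err b t L (Tt b t i)
  have h3 : i < j + 1 := (Tt_strictMono b t).lt_iff_lt.1 h1
  have h4 : j = i := by
    rcases h2 with h2 | h2
    · omega
    · have := (Tt_strictMono b t).le_iff_le.1 h2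
      omega
  rw [hs, h4]

/-! ### computability of the steps -/

/-- the step, on states in unary -/
noncomputable def ustep (Bad Err : ℕ → ℕ → Set Oracle) (b : Polynomial ℕ) (t : ℕ)
    (L : List (List Bool)) (N : ℕ) (s : List Unit × List Unit) : List Unit × List Unit :=
  (List.replicate (step Bad Err b t L N (s.1.length, s.2.length)).1 (),
    List.replicate (step Bad Err b t L N (s.1.length, s.2.length)).2 ())

theorem ustep_iterate (Bad Err : ℕ → ℕ → Set Oracle) (b : Polynomial ℕ) (t : ℕ)
    (L : List (List Bool)) (N k : ℕ) (s : ℕ × ℕ) :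
    (ustep Bad Err b t L N)^[k] (List.replicate s.1 (), List.replicate s.2 ()) =
      (List.replicate ((step Bad Err b t L N)^[k] s).1 (),
        List.replicate ((step Bad Err b t L N)^[k] s).2 ()) := by
  induction k with
  | zero => rfl
  | succ k ih =>
    rw [Function.iterate_succ_apply', Function.iterate_succ_apply', ih, ustep]
    simp only [List.length_replicate, Prod.mk.eta]

theorem p_step {Bad Err : ℕ → ℕ → Set Oracle} {b : Polynomial ℕ} (hc : Check Bad Err b) (t : ℕ)
    (L : List (List Bool)) {α : Type} [TEnc α] {N : α → ℕ} (hN : UPoly N) :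
    Poly (fun p : α × (List Unit × List Unit) => ustep Bad Err b t L (N p.1) p.2) := by
  have hx : UPoly (fun p : α × (List Unit × List Unit) => p.2.1.length) :=
    UPoly.length (Poly.fst (Poly.snd Poly.id))
  have hy : UPoly (fun p : α × (List Unit × List Unit) => p.2.2.length) :=
    UPoly.length (Poly.snd (Poly.snd Poly.id))
  have hN' : UPoly (fun p : α × (List Unit × List Unit) => N p.1) := hN.comp (Poly.fst Poly.id)
  have hG : UPoly (fun p : α × (List Unit × List Unit) => gt' b (N p.1) p.2.1.length) :=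
    u_gt' b hN' hx
  set tst : α × (List Unit × List Unit) → Bool := fun p =>
    decide ((t < p.2.1.length ∧ p.2.2.length ≤ p.2.1.length) ∧
      gt' b (N p.1) p.2.1.length ≤ N p.1) with htst
  have ht : Poly tst := by
    refine Poly.decide_and (Poly.decide_and (Poly.decide_lt (NPC.Poly.const t) hx.toPoly)
      (Poly.decide_le hy.toPoly hx.toPoly)) (Poly.decide_le hG.toPoly hN'.toPoly)
  have hv : Poly (fun x : {p : α × (List Unit × List Unit) // tst p = true} => x.1) :=
    Poly.val _
  have hv' : Poly (fun x : {p : α × (List Unit × List Unit) // tst p = false} => x.1) :=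
    Poly.val _
  have hprop : ∀ x : {p : α × (List Unit × List Unit) // tst p = true},
      (t < x.1.2.1.length ∧ x.1.2.2.length ≤ x.1.2.1.length) ∧
      gt' b (N x.1.1) x.1.2.1.length ≤ N x.1.1 := fun x => of_decide_eq_true x.2
  have hchk : Poly (fun x : {p : α × (List Unit × List Unit) // tst p = true} =>
      chk Bad Err t L x.1.2.1.length x.1.2.2.length) := by
    refine p_chk hc t L (n := fun x : {p : α × (List Unit × List Unit) // tst p = true} =>
      x.1.2.1.length) (j := fun x => x.1.2.2.length) (N := fun x => N x.1.1)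
      (hx.comp hv) (hy.comp hv) (hN'.comp hv) (fun x => (hprop x).1.1)
      (fun x => (hprop x).1.2) fun x => ?_
    have h1 := (gt'_le_iff hc.le_eval _ _).1 (hprop x).2
    unfold Gt at h1
    omega
  have hf : Poly (fun x : {p : α × (List Unit × List Unit) // tst p = true} =>
      ((List.replicate (gt' b (N x.1.1) x.1.2.1.length) (),
        List.replicate (x.1.2.2.length +
          (chk Bad Err t L x.1.2.1.length x.1.2.2.length).toNat) ()) :
            List Unit × List Unit)) :=
    Poly.pair (hG.comp hv) (UPoly.add (hy.comp hv) (u_toNat hchk))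
  have hg : Poly (fun x : {p : α × (List Unit × List Unit) // tst p = false} =>
      ((List.replicate x.1.2.1.length (), List.replicate x.1.2.2.length ()) :
            List Unit × List Unit)) :=
    Poly.pair (hx.comp hv') (hy.comp hv')
  refine (Poly.dcond ht hf hg).congr fun p => ?_
  obtain ⟨a, x, y⟩ := p
  by_cases h : tst (a, x, y) = true
  · rw [dif_pos h]
    have h1 := hprop ⟨(a, x, y), h⟩
    dsimp only at h1
    have h2 := (gt'_le_iff hc.le_eval _ _).1 h1.2
    have h3 := gt'_eq hc.le_eval h1.2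
    unfold ustep step
    rw [if_pos ⟨h1.1, h2⟩, h3]
  · rw [dif_neg h]
    have h1 : ¬ ((t < x.length ∧ y.length ≤ x.length) ∧ Gt b x.length ≤ N a) := by
      intro h2
      apply h
      rw [htst, decide_eq_true_eq]
      exact ⟨h2.1, (gt'_le_iff hc.le_eval _ _).2 h2.2⟩
    unfold ustep step
    rw [if_neg h1]

theorem p_stg {Bad Err : ℕ → ℕ → Set Oracle} {b : Polynomial ℕ} (hc : Check Bad Err b) (t : ℕ)
    (L : List (List Bool)) {α : Type} [TEnc α] {N : α → ℕ} (hN : UPoly N) :
    Poly (fun a => ((List.replicate (stg Bad Err b t L (N a)).1 (),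
      List.replicate (stg Bad Err b t L (N a)).2 ()) : List Unit × List Unit)) := by
  obtain ⟨r, hr⟩ := uPoly_le hN
  refine (Poly.iterLen (l := fun a => List.replicate (N a) ())
    (s := fun _ => ((List.replicate (t + 4) (), List.replicate 4 ()) : List Unit × List Unit))
    (F := fun (a : α) (s : List Unit × List Unit) => ustep Bad Err b t L (N a) s)
    hN (NPC.Poly.const _) (p_step hc t L hN)
    (Polynomial.C 4 * (Polynomial.C (t + 4) + r) + Polynomial.C 3) ?_).congr fun a => ?_
  · intro a k _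
    have e := ustep_iterate Bad Err b t L (N a) k (t + 4, 4)
    dsimp only at e
    have e' : (fun s : List Unit × List Unit => ustep Bad Err b t L (N a) s)^[k]
        (List.replicate (t + 4) (), List.replicate 4 ()) = _ := e
    rw [e', sz_pair, sz_replicate_unit, sz_replicate_unit]
    obtain ⟨j, hj, hs, h1, h2⟩ := iter_spec Bad Err b t L (N a) k
    rw [hs]
    have h3 := add_le_Tt b t j
    have h4 := lev_le Bad Err t L (Tt b t) j
    have h5 := hr a
    have h6 : Tt b t j ≤ t + 4 + N a := by
      rcases h2 with h2 | h2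
      · rw [h2]
        have : Tt b t 0 = t + 4 := rfl
        omega
      · omega
    simp only [Polynomial.eval_add, Polynomial.eval_mul, Polynomial.eval_C]
    omega
  · rw [List.length_replicate]
    exact ustep_iterate Bad Err b t L (N a) (N a) (t + 4, 4)

end Stage

/-- The stages are computable in unary. -/
theorem exists_stage {Bad Err : ℕ → ℕ → Set Oracle} {b : Polynomial ℕ} (hc : Check Bad Err b)
    (t : ℕ) (L : List (List Bool)) :
    ∃ stg : ℕ → ℕ × ℕ, (∀ i, stg (Tt b t i) = (Tt b t i, lev Bad Err t L (Tt b t) i)) ∧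
      (∀ N, (stg N).1 = N → ∃ i, N = Tt b t i ∧ (stg N).2 = lev Bad Err t L (Tt b t) i) ∧
      ∀ {α : Type} [TEnc α] {N : α → ℕ}, UPoly N →
        UPoly (fun a => (stg (N a)).1) ∧ UPoly (fun a => (stg (N a)).2) := by
  refine ⟨Stage.stg Bad Err b t L, Stage.stg_Tt Bad Err b t L, fun N hN => ?_, ?_⟩
  · obtain ⟨j, hs, _, _⟩ := Stage.stg_spec Bad Err b t L N
    refine ⟨j, ?_, ?_⟩
    · rw [← hN, hs]
    · rw [hs]
  · intro α _ N hN
    have h := Stage.p_stg hc t L hN
    exact ⟨Poly.fst h, Poly.snd h⟩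

end Pool.Agent.H628R3.RO
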